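import Pool.Agent.Lib.MP_144d21_co.XU.Iface

/-!
# T5CORE: 2-connected members of the family with `r_2 ≤ 4` are chordal
-/

set_option autoImplicit false

namespace Pool.Agent.Xu.H22

open Finset Polynomial Pool.Agent.Xu

theorem t5core (hnum : CorenumS) (ht4 : T4coreS) (hpert : PertS) (hrkne : RkneS)
    (hrank : RanktS) (hent : EntfS) : T5coreS := by
  intro V _ _ G S hT hgood
  obtain ⟨r0, r1, a, b, ha, hchi⟩ := hgood
  obtain ⟨h0, h1, hcard, hne, -, hcols, htri⟩ := hnum V G S r0 r1 a b hT hchi
  by_contra hch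
  -- the case of an edge
  by_cases hab : a + b = 0
  · apply hch
    intro n hn f
    by_contra hcon
    push Not at hcon
    have h2 : Fintype.card (Fin n) ≤ S.card := by
      have : (univ : Finset (Fin n)).card ≤ S.card :=
        Finset.card_le_card_of_injOn (fun i => f i) (fun i _ => by simpa using hcon i)
          (fun i _ j _ h => f.injective h)
      simpa using this
    rw [Fintype.card_fin] at h2
    omega
  obtain ⟨x, hx, y, hy, z, hz, hxy, hyz, hxz⟩ := htri (by omega)
  have hK : ∀ c ∈ cols G S 4, a + 6 ≤ kap2 G S c := by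
    intro c hc
    by_contra hlt
    push Not at hlt
    have h3 := hrank V G S c hc
    obtain ⟨p, hp, hrk⟩ := hpert V G S (plc c)
    have h4 : rk p G S ≤ ne G S := (hrkne V G G S S p).1
    have h5 : rk p G S = ne G S := by omega
    exact hch (ht4 V G S p a hp hT h5 ⟨r0, r1, a, b, le_rfl, hchi⟩)
  have hpos : 0 < (cols G S 4).card := by
    rw [hcols]; positivity
  have hE := hent V G S x y z a hT.2.1 hx hy hz hxy hyz hxz (Finset.card_pos.1 hpos) hK
  have hlog2 : 0 < Real.log 2 := Real.log_pos (by norm_num)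
  have hlog : Real.log ((cols G S 4).card / 24) = ((a : ℝ) - 1) * Real.log 2 := by
    rw [hcols]
    push_cast
    have h6 : (12 : ℝ) * 2 ^ a / 24 = 2 ^ a / 2 := by ring
    rw [h6, Real.log_div (by positivity) (by norm_num), Real.log_pow]
    ring
  rw [hlog] at hE
  have h7 : (a : ℝ) ≤ 13 / 10 * ((a : ℝ) - 1) := by
    have h8 : (a : ℝ) * Real.log 2 ≤ (13 / 10 * ((a : ℝ) - 1)) * Real.log 2 := by
      calc (a : ℝ) * Real.log 2 ≤ 13 / 10 * (((a : ℝ) - 1) * Real.log 2) := hE
        _ = _ := by ring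
    exact le_of_mul_le_mul_right h8 hlog2
  have h9 : (a : ℝ) ≤ 4 := by exact_mod_cast ha
  linarith

end Pool.Agent.Xu.H22
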